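import Pool.Agent.Y386.IR.Stm3

/-!
# IR-FIB: the independent sets of the product

Job 11335 of helper386, by helper891; generalises the middle of the proof of `col_of_imp_le` in
`Pool.Agent.H692R2.ImpMain`.
-/

set_option autoImplicit false

namespace Pool.Agent.Y891.IR

open Pool.Agent.NPC Pool.Agent.H692R2 Finset
open Pool.Agent.Y386.IR

theorem t_FIB : S_INT → S_FIB := by
  classical
  intro hINT p q L hq hL E I hpq hI
  have hp : 0 < p := by omega
  let A : Fin (sV L E).length → Finset (Fin p) := fun r =>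
    Finset.univ.filter fun i => (finProdFinEquiv (r, i) : Fin ((sV L E).length * p)) ∈ I
  have hval : ∀ (r : Fin (sV L E).length) (i : Fin p),
      ((finProdFinEquiv (r, i) : Fin ((sV L E).length * p)) : ℕ) = i + p * r := fun r i => rfl
  have hlab : ∀ (r : Fin (sV L E).length) (i : Fin p),
      sl p L E ((finProdFinEquiv (r, i) : Fin ((sV L E).length * p)) : ℕ) =
        (sV L E)[(r : ℕ)]'r.2 := by
    intro r i
    rw [hval]
    unfold sl
    have : ((i : ℕ) + p * r) / p = r := by
      rw [Nat.add_mul_div_left _ _ hp, Nat.div_eq_of_lt i.2, zero_add]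
    rw [this, List.getD_eq_getElem _ _ r.2]
  have hmod : ∀ (r : Fin (sV L E).length) (i : Fin p),
      ((finProdFinEquiv (r, i) : Fin ((sV L E).length * p)) : ℕ) % p = i := by
    intro r i
    rw [hval, Nat.add_mul_mod_self_left, Nat.mod_eq_of_lt i.2]
  have hA : ∀ r, ∀ i ∈ A r, ∀ j ∈ A r, ¬ CA p q i j := by
    intro r i hi j hj hc
    simp only [A, Finset.mem_filter, Finset.mem_univ, true_and] at hi hj
    have hadj : (gr p q L hq hL E).Adj (finProdFinEquiv (r, i)) (finProdFinEquiv (r, j)) := by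
      refine Or.inl ⟨by rw [hlab, hlab], ?_⟩
      rw [hmod, hmod]
      exact hc
    exact hI hi hj hadj.ne hadj
  have hdis : ∀ r s : Fin (sV L E).length, sA L E ((sV L E)[(r : ℕ)]'r.2) ((sV L E)[(s : ℕ)]'s.2) →
      ∀ i ∈ A r, i ∉ A s := by
    intro r s hrs i hi hi'
    simp only [A, Finset.mem_filter, Finset.mem_univ, true_and] at hi hi'
    have hadj : (gr p q L hq hL E).Adj (finProdFinEquiv (r, i)) (finProdFinEquiv (s, i)) := by
      refine Or.inr ⟨by rw [hmod, hmod], ?_⟩
      rw [hlab, hlab]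
      exact hrs
    exact hI hi hi' hadj.ne hadj
  have hint : ∀ r, (A r).card ≤ q ∧ ((A r).card = q → ∃ a < p, ∀ x : Fin p,
      (x ∈ A r ↔ ((a ≤ (x : ℕ) ∧ (x : ℕ) < a + q) ∨ (x : ℕ) + p < a + q))) := by
    intro r
    have h1 := hINT p q ((A r).map Fin.valEmbedding) hq hpq (by
      intro x hx
      obtain ⟨i, _, rfl⟩ := Finset.mem_map.1 hx
      exact i.2) (by
      intro x hx y hy
      obtain ⟨i, hi, rfl⟩ := Finset.mem_map.1 hx
      obtain ⟨j, hj, rfl⟩ := Finset.mem_map.1 hy
      exact hA r i hi j hj)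
    rw [Finset.card_map] at h1
    refine ⟨h1.1, fun h => ?_⟩
    obtain ⟨a, ha, h2⟩ := h1.2 h
    refine ⟨a, ha, fun x => ?_⟩
    rw [← h2 x x.2, Finset.mem_map]
    constructor
    · intro hx
      exact ⟨x, hx, rfl⟩
    · rintro ⟨i, hi, hix⟩
      have : i = x := Fin.ext hix
      rwa [this] at hi
  have hsum : I.card = ∑ r, (A r).card := by
    have h1 : I.card = (Finset.univ.filter fun w : Fin (sV L E).length × Fin p =>
        (finProdFinEquiv w : Fin ((sV L E).length * p)) ∈ I).card := by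
      rw [← Finset.card_map finProdFinEquiv.toEmbedding]
      congr 1
      ext m
      simp only [Finset.mem_map, Finset.mem_filter, Finset.mem_univ, true_and,
        Equiv.coe_toEmbedding]
      constructor
      · intro hm
        refine ⟨finProdFinEquiv.symm m, ?_, finProdFinEquiv.apply_symm_apply m⟩
        rw [finProdFinEquiv.apply_symm_apply m]
        exact hm
      · rintro ⟨q, hq, rfl⟩
        exact hq
    rw [h1, Finset.card_eq_sum_card_fiberwise (f := Prod.fst) (t := Finset.univ)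
      (fun _ _ => Finset.mem_coe.2 (Finset.mem_univ _))]
    refine Finset.sum_congr rfl fun r _ => ?_
    rw [← Finset.card_map ⟨fun i : Fin p => (r, i), fun i j hij => (Prod.mk.inj hij).2⟩]
    congr 1
    ext ⟨s, i⟩
    simp only [Finset.mem_filter, Finset.mem_univ, true_and, Finset.mem_map, A,
      Function.Embedding.coeFn_mk, Prod.mk.injEq]
    constructor
    · rintro ⟨h1, rfl⟩
      exact ⟨i, h1, rfl, rfl⟩
    · rintro ⟨j, h1, rfl, rfl⟩
      exact ⟨h1, rfl⟩
  have hle : ∀ r ∈ (Finset.univ : Finset (Fin (sV L E).length)), (A r).card ≤ q := fun r _ =>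
    (hint r).1
  have hconst : ∑ _r : Fin (sV L E).length, q = q * (sV L E).length := by
    rw [Finset.sum_const, Finset.card_univ, Fintype.card_fin, smul_eq_mul, mul_comm]
  refine ⟨?_, fun hcard => ?_⟩
  · rw [hsum]
    exact (Finset.sum_le_sum hle).trans hconst.le
  have hAq : ∀ r, (A r).card = q := by
    intro r
    have heq : ∑ r : Fin (sV L E).length, (A r).card = ∑ _r : Fin (sV L E).length, q := by
      rw [hconst, ← hsum]
      exact hcard
    exact (Finset.sum_eq_sum_iff_of_le hle).1 heq r (Finset.mem_univ r)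
  choose κ hκ1 hκ2 using fun r => (hint r).2 (hAq r)
  have hpos : ∀ x ∈ sV L E, ∃ r : Fin (sV L E).length, (sV L E)[(r : ℕ)]'r.2 = x := by
    intro x hx
    obtain ⟨i, hi, hia⟩ := List.getElem_of_mem hx
    exact ⟨⟨i, hi⟩, hia⟩
  refine ⟨fun x => if hx : x ∈ sV L E then κ (hpos x hx).choose else 0, ?_, ?_⟩
  · intro x hx
    simp only [dif_pos hx]
    exact hκ1 _
  · intro x y hx hy hxy
    simp only [dif_pos hx, dif_pos hy]
    obtain ⟨r, hr⟩ : ∃ r, r = (hpos x hx).choose := ⟨_, rfl⟩
    obtain ⟨s, hs⟩ : ∃ s, s = (hpos y hy).choose := ⟨_, rfl⟩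
    have er := (hpos x hx).choose_spec
    have es := (hpos y hy).choose_spec
    rw [← hr] at er ⊢
    rw [← hs] at es ⊢
    have hrs : sA L E ((sV L E)[(r : ℕ)]'r.2) ((sV L E)[(s : ℕ)]'s.2) := by
      rw [er, es]
      exact hxy
    have h1 : (⟨κ r, hκ1 r⟩ : Fin p) ∈ A r := (hκ2 r _).2 (Or.inl ⟨le_rfl, by
      show κ r < κ r + q
      omega⟩)
    have h2 : (⟨κ s, hκ1 s⟩ : Fin p) ∈ A s := (hκ2 s _).2 (Or.inl ⟨le_rfl, by
      show κ s < κ s + q
      omega⟩)
    have h3 := hdis r s hrs _ h1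
    have h4 := hdis s r (sA_symm hrs) _ h2
    rw [hκ2 s] at h3
    rw [hκ2 r] at h4
    simp only at h3 h4
    have b1 := hκ1 r
    have b2 := hκ1 s
    unfold CA
    omega

end Pool.Agent.Y891.IR
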